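import Pool.Agent.W114.PQ.App
import Pool.Agent.W52.PQ.SV
import Pool.Agent.W52.PQ.DS
import Pool.Agent.W930.PQ.MN
import Pool.Agent.W215.PQ.BK
import Pool.Agent.W215.PQ.L2
import Pool.Agent.W177.PQ.H4
import Pool.Agent.W465.PQ.PQGS
import Pool.Agent.W298.PQ.CA
import Pool.Agent.W298.PQ.A
import Pool.Agent.W395.PQ.CB
import Pool.Agent.W304.PQ.B2
import Pool.Agent.W933.PQCC
import Pool.Agent.W308.PQ.C1
import Pool.Agent.W11.PQ.CF
import Pool.Agent.W407.PQ.C2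
import Pool.Agent.W475.PQ.E
import Pool.Agent.W475.PQ.Main
import Pool.Agent.W613.PQDp

set_option autoImplicit false

/-!
# The main theorem of project PQ
-/

namespace Pool.Agent.W114.PQ

theorem b1 : S_B1 := Pool.Agent.W215.PQ.b1
theorem sv : S_SV := Pool.Agent.W52.PQ.sv
theorem mn : S_MN := Pool.Agent.W930.PQ.mn
theorem bk : S_BK := Pool.Agent.W215.PQ.bk
theorem l2 : S_L2 := Pool.Agent.W215.PQ.l2
theorem h4 : S_H4 := Pool.Agent.W177.PQ.h4
theorem gs : S_GS := Pool.Agent.W465.PQ.GS.gs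
theorem gd : S_GD := Pool.Agent.W465.PQ.GS.gd
theorem ca : S_CA := Pool.Agent.W298.PQ.ca sv mn bk
theorem a : S_A := Pool.Agent.W298.PQ.a ca
theorem cb : S_CB := Pool.Agent.W395.PQ.CB.cb sv mn
theorem b : S_B := Pool.Agent.W304.PQ.main cb l2
theorem cc : S_CC := Pool.Agent.W933.PQCC.cc sv mn b1
theorem c1 : S_C1 := Pool.Agent.W308.PQ.c1 cc gs gd
theorem cf : S_CF := Pool.Agent.W11.PQ.cf sv mn h4
theorem c2 : S_C2 := Pool.Agent.W407.PQ.C2.c2 cf gs gd
theorem e : S_E := Pool.Agent.W475.PQ.e gs gd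
theorem main : S_MAIN := Pool.Agent.W475.PQ.main a b c1 c2 e
theorem ds : S_DS := Pool.Agent.W52.PQ.ds
theorem dp : S_DP := Pool.Agent.W613.PQDp.dp

end Pool.Agent.W114.PQ

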