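import Mathlib
import Pool.Agent.H177R2.SD.Brc

set_option autoImplicit false

/-!
# The symmetric design of a difference set
-/

namespace Pool.Agent.W114.PQ

open Finset Pool.Agent.H177R2.SD

open scoped Classical in
theorem design_of_ds {G : Type} [Group G] [Fintype G] (D : Finset G) {v k l : ℕ}
    (hv : Fintype.card G = v) (hk : D.card = k) (hkv : k < v)
    (hl : ∀ g : G, g ≠ 1 → ((D ×ˢ D).filter (fun p : G × G => p.1 * p.2⁻¹ = g)).card = l) :
    IsSymmetricDesign v k l := by
  let e : Fin v ≃ G := (Fintype.equivFinOfCardEq hv).symm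
  refine ⟨hkv, k, fun i => univ.filter (fun x => e x * e i ∈ D), ?_, ?_, ?_⟩
  · intro i
    rw [← hk]
    apply card_bij (fun x _ => e x * e i)
    · intro x hx
      exact (mem_filter.1 hx).2
    · intro x _ y _ h
      exact e.injective (mul_right_cancel h)
    · intro d hd
      refine ⟨e.symm (d * (e i)⁻¹), ?_, ?_⟩
      · rw [mem_filter]
        refine ⟨mem_univ _, ?_⟩
        simpa using hd
      · simp
  · intro x
    rw [← hk]
    apply card_bij (fun i _ => e x * e i)
    · intro i hi
      have := (mem_filter.1 hi).2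
      simpa using this
    · intro i _ j _ h
      exact e.injective (mul_left_cancel h)
    · intro d hd
      refine ⟨e.symm ((e x)⁻¹ * d), ?_, ?_⟩
      · simp [hd]
      · simp
  · intro x y hxy
    rw [← hl (e x * (e y)⁻¹) (by
      intro h
      apply hxy
      apply e.injective
      exact mul_inv_eq_one.1 h)]
    apply card_bij (fun i _ => (e x * e i, e y * e i))
    · intro i hi
      have := (mem_filter.1 hi).2
      simp only [mem_filter, mem_univ, true_and] at this
      simp only [mem_filter, mem_product]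
      refine ⟨this, ?_⟩
      group
    · intro i _ j _ h
      have := congrArg Prod.fst h
      exact e.injective (mul_left_cancel this)
    · intro p hp
      simp only [mem_filter, mem_product] at hp
      refine ⟨e.symm ((e x)⁻¹ * p.1), ?_, ?_⟩
      · simp only [mem_filter, mem_univ, true_and, Equiv.apply_symm_apply, mul_inv_cancel_left]
        refine ⟨hp.1.1, ?_⟩
        have h1 : e y * ((e x)⁻¹ * p.1) = p.2 := by
          have h2 : (e x)⁻¹ * p.1 = (e y)⁻¹ * p.2 := by
            have h3 := hp.2
            rw [mul_inv_eq_iff_eq_mul] at h3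
            rw [h3]
            group
          rw [h2]
          group
        rw [h1]
        exact hp.1.2
      · apply Prod.ext
        · simp
        · simp only [Equiv.apply_symm_apply]
          have h2 : (e x)⁻¹ * p.1 = (e y)⁻¹ * p.2 := by
            have h3 := hp.2
            rw [mul_inv_eq_iff_eq_mul] at h3
            rw [h3]
            group
          rw [h2]
          group

open scoped Classical in
/-- Bruck-Ryser for planar difference sets. -/
theorem br_planar {G : Type} [Group G] [Fintype G] (D : Finset G) {n : ℕ} (hn : 2 ≤ n)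
    (hv : Fintype.card G = n ^ 2 + n + 1) (hk : D.card = n + 1)
    (hl : ∀ g : G, g ≠ 1 → ((D ×ˢ D).filter (fun p : G × G => p.1 * p.2⁻¹ = g)).card = 1)
    (h4 : n % 4 = 1 ∨ n % 4 = 2) {p : ℕ} (hp : p.Prime) (hp2 : p ≠ 2)
    (h1 : p ∣ n) (h2 : ¬ p ^ 2 ∣ n) : p % 4 ≠ 3 := by
  have hd := design_of_ds D hv hk (by nlinarith) hl
  have h5 := brc_local hd (by omega) (by nlinarith) hp hp2 (by simpa using h1) (by simpa using h2)
    (by rw [Nat.dvd_one]; exact hp.ne_one)
  have : Fact p.Prime := ⟨hp⟩
  have h6 := h5.2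
  have hodd : Odd ((n ^ 2 + n + 1 - 1) / 2) := by
    have e1 : n ^ 2 + n + 1 - 1 = n * (n + 1) := by
      have : n ^ 2 + n + 1 = n * (n + 1) + 1 := by ring
      omega
    rw [e1]
    rcases h4 with h4 | h4
    · obtain ⟨k, hk⟩ : ∃ k, n = 4 * k + 1 := ⟨n / 4, by omega⟩
      rw [hk]
      have : (4 * k + 1) * (4 * k + 1 + 1) = 2 * (8 * k ^ 2 + 6 * k + 1) := by ring
      rw [this, Nat.mul_div_cancel_left _ (by norm_num)]
      exact ⟨4 * k ^ 2 + 3 * k, by ring⟩
    · obtain ⟨k, hk⟩ : ∃ k, n = 4 * k + 2 := ⟨n / 4, by omega⟩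
      rw [hk]
      have : (4 * k + 2) * (4 * k + 2 + 1) = 2 * (8 * k ^ 2 + 10 * k + 3) := by ring
      rw [this, Nat.mul_div_cancel_left _ (by norm_num)]
      exact ⟨4 * k ^ 2 + 5 * k + 1, by ring⟩
  rw [hodd.neg_one_pow] at h6
  have h7 : IsSquare (-1 : ZMod p) := by
    push_cast at h6
    simpa using h6
  rw [ZMod.exists_sq_eq_neg_one_iff] at h7
  exact h7

end Pool.Agent.W114.PQ
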