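import Pool.Agent.W114.PQ.Stm
import Pool.Agent.W114.PQ.Des
import Pool.Agent.W114.VT.Main

set_option autoImplicit false

/-!
# Applications to difference sets with Singer parameters
-/

namespace Pool.Agent.W114.PQ

open Finset Filter Topology
open Pool.Agent.H951R4.OD (ch PI Ex)
open Pool.Agent.H771R2.SingerDS

theorem squeeze {A B : ℕ → Set ℕ} (hAB : ∀ X, A X ⊆ B X) (hB : ∀ X, (B X).Finite)
    (h : Tendsto (fun X : ℕ => ((B X).ncard : ℝ) * Real.log X / X) atTop (𝓝 0)) :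
    Tendsto (fun X : ℕ => ((A X).ncard : ℝ) * Real.log X / X) atTop (𝓝 0) := by
  refine squeeze_zero (fun X => ?_) (fun X => ?_) h
  · have := Real.log_natCast_nonneg X
    positivity
  · have h1 := Real.log_natCast_nonneg X
    have h2 : ((A X).ncard : ℝ) ≤ (B X).ncard := by
      exact_mod_cast Set.ncard_le_ncard (hAB X) (hB X)
    gcongr

theorem finX (P : ℕ → Prop) (X : ℕ) : {n : ℕ | 1 ≤ n ∧ n ≤ X ∧ P n}.Finite :=
  (Set.finite_Icc 1 X).subset (fun n hn => ⟨hn.1, hn.2.1⟩)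

theorem ex_split {c0 n p : ℕ} (h : Ex c0 n p) : n = p ^ 1 * (n / p) ∧ ¬ p ∣ n / p := by
  obtain ⟨_, _, h3, h4⟩ := h
  refine ⟨by rw [pow_one, Nat.mul_div_cancel' h3], ?_⟩
  rintro ⟨c, hc⟩
  apply h4
  refine ⟨c, ?_⟩
  rw [pow_two, mul_assoc, ← hc, Nat.mul_div_cancel' h3]

/-- Singer parameters, `L ∣ m`. -/
theorem pass_singer {L n m : ℕ} (hm : Odd m) (hm3 : 3 ≤ m) (hLm : L ∣ m) (hn : 2 ≤ n)
    (h : HasSinger n m) : Pass (datS L) n := by
  refine ⟨?_, ?_⟩
  · intro p q j hE hq hqc hT hj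
    obtain ⟨d, hd1, hdL, hd⟩ := hT
    have : Fact q.Prime := ⟨hq⟩
    have hnp := ex_split hE
    refine VT.excluded' hm hm3 hn h hq ?_ ?_ hE.1 hnp.1 hnp.2 odd_one hj
    · rw [← orderOf_dvd_iff_pow_eq_one, hd]
      exact hdL.trans hLm
    · intro h1
      rw [h1, orderOf_one] at hd
      omega
  · intro h0
    exfalso
    have : (datS L).β = 0 := rfl
    rw [this] at h0
    norm_num at h0

theorem tau_datS {L : ℕ} (hL : Odd L) (h3 : 3 ∣ L) (hL3 : 3 < L) :
    1 < (datS L).τ + (datS L).β / 2 := by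
  have h1 : (datS L).β = 0 := rfl
  have h2 : (datS L).τ = ((L.divisors.filter (fun d => 1 < d)).card : ℝ) := by
    unfold datS
    congr!
  rw [h1, h2]
  have h4 : ({3, L} : Finset ℕ) ⊆ L.divisors.filter (fun d => 1 < d) := by
    intro x hx
    rw [mem_insert, mem_singleton] at hx
    rw [mem_filter, Nat.mem_divisors]
    rcases hx with rfl | rfl
    · exact ⟨⟨h3, by omega⟩, by omega⟩
    · exact ⟨⟨dvd_rfl, by omega⟩, by omega⟩
  have h5 := card_le_card h4
  rw [card_pair (by omega)] at h5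
  have h6 : (2 : ℝ) ≤ ((L.divisors.filter (fun d => 1 < d)).card : ℝ) := by exact_mod_cast h5
  linarith

theorem singer_app (main : S_MAIN) (ds : S_DS) {L : ℕ} (hL : Odd L) (h3 : 3 ∣ L) (hL3 : 3 < L) :
    Tendsto (fun X : ℕ => ({n : ℕ | 2 ≤ n ∧ n ≤ X ∧ ¬ IsPrimePow n ∧
      ∃ m : ℕ, Odd m ∧ 3 ≤ m ∧ L ∣ m ∧ HasSinger n m}.ncard : ℝ) * Real.log X / X)
      atTop (𝓝 0) := by
  refine squeeze (fun X => ?_) (fun X => ?_) (main (datS L) (ds L hL h3) (tau_datS hL h3 hL3))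
  · rintro n ⟨hn2, hnX, hnp, m, hm, hm3, hLm, hS⟩
    exact ⟨by omega, hnX, pass_singer hm hm3 hLm hn2 hS, fun hp => hnp hp.isPrimePow⟩
  · exact finX _ X

/-- Singer parameters, `m = 3`. -/
theorem pass_planar {n : ℕ} (hn : 2 ≤ n) (h4 : n % 4 = 1 ∨ n % 4 = 2) (h : HasSinger n 3) :
    Pass datP n := by
  refine ⟨?_, ?_⟩
  · intro p q j hE hq hqc hT hj
    have : Fact q.Prime := ⟨hq⟩
    have hnp := ex_split hE
    have hz : ((n : ZMod q)) ^ 2 + n + 1 = 0 := by
      have h5 := (ZMod.natCast_eq_zero_iff (n ^ 2 + n + 1) q).2 hT.1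
      push_cast at h5
      exact h5
    refine VT.excluded' (m := 3) (by decide) le_rfl hn h hq ?_ ?_ hE.1 hnp.1 hnp.2 odd_one hj
    · linear_combination ((n : ZMod q) - 1) * hz
    · intro h1
      rw [h1] at hz
      have h5 : ((3 : ℕ) : ZMod q) = 0 := by
        push_cast
        linear_combination hz
      rw [ZMod.natCast_eq_zero_iff] at h5
      apply hqc
      have : datP.c0 = 6 := rfl
      rw [this]
      exact h5.trans (by norm_num)
  · intro _ p hE
    have hc : datP.c0 = 6 := rfl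
    obtain ⟨hp, hpc, hpn, hpn2⟩ := hE
    obtain ⟨G, hG, hGf, hGd, D, h1, h2, h3⟩ := h
    have hn1 : 0 < n - 1 := by omega
    have hv : Fintype.card G = n ^ 2 + n + 1 := by
      apply Nat.eq_of_mul_eq_mul_right hn1
      rw [h1]
      obtain ⟨k, rfl⟩ : ∃ k, n = k + 1 := ⟨n - 1, by omega⟩
      simp only [Nat.add_sub_cancel]
      rw [Nat.sub_eq_iff_eq_add (Nat.one_le_pow _ _ (by omega))]
      ring
    have hk : D.card = n + 1 := by
      apply Nat.eq_of_mul_eq_mul_right hn1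
      rw [h2]
      obtain ⟨k, rfl⟩ : ∃ k, n = k + 1 := ⟨n - 1, by omega⟩
      simp only [Nat.add_sub_cancel]
      rw [Nat.sub_eq_iff_eq_add (Nat.one_le_pow _ _ (by omega))]
      ring
    refine br_planar D hn hv hk ?_ h4 hp ?_ hpn hpn2
    · intro g hg
      apply Nat.eq_of_mul_eq_mul_right hn1
      have h5 := h3 g hg
      norm_num at h5
      rw [one_mul, ← h5]
      congr!
    · rintro rfl
      apply hpc
      rw [hc]
      norm_num

theorem planar_app (main : S_MAIN) (dp : S_DP) :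
    Tendsto (fun X : ℕ => ({n : ℕ | 2 ≤ n ∧ n ≤ X ∧ ¬ IsPrimePow n ∧ (n % 4 = 1 ∨ n % 4 = 2) ∧
      HasSinger n 3}.ncard : ℝ) * Real.log X / X) atTop (𝓝 0) := by
  have h1 : 1 < datP.τ + datP.β / 2 := by
    have h2 : datP.β = 1 := rfl
    have h3 : datP.τ = 1 := rfl
    rw [h2, h3]
    norm_num
  refine squeeze (fun X => ?_) (fun X => ?_) (main datP dp h1)
  · rintro n ⟨hn2, hnX, hnp, h4, hS⟩
    exact ⟨by omega, hnX, pass_planar hn2 h4 hS, fun hp => hnp hp.isPrimePow⟩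
  · exact finX _ X

end Pool.Agent.W114.PQ
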