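import Pool.Agent.H951R4.OD.Defs

set_option autoImplicit false

/-!
# Project PQ: almost all orders are prime powers

`Dat` is a family of tests; `Pass D n` says that `n` passes all tests.  MAIN: if `τ + β/2 > 1`, the
number of `n ≤ X` which pass the tests and are not primes is `o(X / log X)`.

Every task is one `Prop` below (`S_...`); a task proves it from earlier ones given as hypotheses.
-/

namespace Pool.Agent.W114.PQ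

open Finset Filter Topology
open Pool.Agent.H951R4.OD (ch PI Ex)

/-- `T q n`: the prime `q` tests the integer `n`; `ρ q / q` is the probability of this. -/
structure Dat where
  c0 : ℕ
  m : ℕ
  e : ℝ
  Δ : ℤ
  κ : ℝ
  τ : ℝ
  β : ℝ
  ρ : ℕ → ℝ
  T : ℕ → ℕ → Prop

open scoped Classical in
structure Ax (D : Dat) : Prop where
  c0_pos : 0 < D.c0
  two : 2 ∣ D.c0
  m_odd : Odd D.m
  e01 : D.e = 0 ∨ D.e = 1
  neg : D.Δ < 0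
  κ1 : 1 ≤ D.κ
  τ1 : 1 ≤ D.τ
  β01 : D.β = 0 ∨ D.β = 1
  rho_low : ∀ q : ℕ, q.Prime → ¬ q ∣ D.c0 → 1 + D.e * ch D.Δ q ≤ D.ρ q
  rho_up : ∀ q : ℕ, 0 ≤ D.ρ q ∧ D.ρ q ≤ D.κ
  per : ∀ q n : ℕ, q.Prime → (D.T q (n + q ^ 2) ↔ D.T q n)
  ord : ∀ q n : ℕ, q.Prime → ¬ q ∣ D.c0 → D.T q n → (n : ZMod q) ^ D.m = 1
  cnt : ∀ q : ℕ, q.Prime → ¬ q ∣ D.c0 →
    |(((range (q ^ 2)).filter (fun n => D.T q n)).card : ℝ) - q * D.ρ q| ≤ D.κ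
  mert : ∃ C : ℝ, ∀ y z : ℕ, 2 ≤ y → y ≤ z →
    |∑ q ∈ PI y z, D.ρ q / q - D.τ * Real.log (Real.log z / Real.log y)| ≤ C

/-- `n` passes all tests -/
def Pass (D : Dat) (n : ℕ) : Prop :=
  (∀ p q j : ℕ, Ex D.c0 n p → q.Prime → ¬ q ∣ D.c0 → D.T q n → (p : ZMod q) ^ j ≠ -1) ∧
  (D.β = 1 → ∀ p : ℕ, Ex D.c0 n p → p % 4 ≠ 3)

/-- the exponent for `k` primes -/
noncomputable def Dk (D : Dat) (k : ℕ) : ℝ := D.τ + D.β / 2 - D.κ / 2 ^ k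

/-- `exp ((log X)^(3/4))` -/
noncomputable def wX (X : ℕ) : ℕ := ⌊Real.exp ((Real.log X) ^ (3 / 4 : ℝ))⌋₊

open scoped Classical in
/-- the exact prime divisors of `n` up to `w` -/
noncomputable def EP (c0 w n : ℕ) : Finset ℕ := (Icc 1 w).filter (fun p => Ex c0 n p)

/-! ## A. Tools -/

/-- Task SV: Brun's sieve, all conditions modulo `p ^ 2`, means at most `κ / p`. -/
def S_SV : Prop := ∀ κ : ℝ, 1 ≤ κ → ∃ C : ℝ, 1 ≤ C ∧ ∀ z N : ℕ, 3 ≤ z →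
  C * Real.log z * (1 + Real.log (Real.log z)) ≤ Real.log N →
  ∀ (S : Finset ℕ) (h : ℕ → ℕ → ℝ), (∀ p ∈ S, p.Prime ∧ p ≤ z) →
  (∀ p ∈ S, ∀ n, h p n = 0 ∨ h p n = 1) → (∀ p ∈ S, ∀ n, h p (n + p ^ 2) = h p n) →
  (∀ p ∈ S, (∑ n ∈ range (p ^ 2), h p n) / (p : ℝ) ^ 2 ≤ κ / p) →
  ∑ n ∈ Icc 1 N, ∏ p ∈ S, (1 - h p n) ≤
    C * N * Real.exp (-∑ p ∈ S, (∑ n ∈ range (p ^ 2), h p n) / (p : ℝ) ^ 2)

open scoped Classical in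
/-- Task MN (means): the mean of the test condition for multiples of `a`, and its disjointness from
`q ∣ n`. -/
def S_MN : Prop := ∀ D : Dat, Ax D → ∀ q a : ℕ, q.Prime → ¬ q ∣ D.c0 →
  (∀ n : ℕ, D.T q n → ¬ q ∣ n) ∧
  (Nat.Coprime a q → |(∑ n ∈ range (q ^ 2), (if D.T q (a * n) then (1 : ℝ) else 0)) / (q : ℝ) ^ 2 -
    D.ρ q / q| ≤ D.κ / (q : ℝ) ^ 2)

open scoped Classical in
/-- Task BK: the primes modulo which one of `k` given primes is a nonresidue. -/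
def S_BK : Prop := ∀ D : Dat, Ax D → ∀ k : ℕ, ∃ C : ℝ, 3 ≤ C ∧ ∀ ps : Finset ℕ, ps.card = k →
  (∀ p ∈ ps, p.Prime) → ∀ y z : ℕ, C * (∏ p ∈ ps, (p : ℝ)) ^ 2 ≤ y → y ≤ z →
    (D.τ - D.κ / 2 ^ k) * Real.log (Real.log z / Real.log y) - C ≤
      ∑ q ∈ (PI y z).filter (fun q => ¬ q ∣ D.c0 ∧ ∃ p ∈ ps, ch (p : ℤ) q = -1), D.ρ q / q

open scoped Classical in
/-- Task B1: the same for one prime, with the lower bound `1/2`. -/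
def S_B1 : Prop := ∀ D : Dat, Ax D → ∃ C : ℝ, 3 ≤ C ∧ ∀ p : ℕ, p.Prime →
  ∀ y z : ℕ, C * (p : ℝ) ^ 2 ≤ y → y ≤ z →
    1 / 2 * Real.log (Real.log z / Real.log y) - C ≤
      ∑ q ∈ (PI y z).filter (fun q => ¬ q ∣ D.c0 ∧ ch (p : ℤ) q = -1), D.ρ q / q

open scoped Classical in
/-- Task L2: second moment over all integers `x ∈ (R, 2R]`. -/
def S_L2 : Prop := ∀ (κ : ℝ) (c : ℕ → ℝ), 1 ≤ κ → (∀ q, |c q| ≤ κ) → ∀ Y Q R : ℕ, 1 ≤ Y →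
  Q ^ 4 ≤ R →
  (((Ioc R (2 * R)).filter (fun x : ℕ => 1 / 2 < |∑ q ∈ PI Y Q, c q * ch (x : ℤ) q / q|)).card : ℝ) ≤
    8 * κ ^ 2 * R / Y

open scoped Classical in
/-- Task H4: for fixed `g ≥ 2` many primes `q` have a power of `g` congruent to `-1`. -/
def S_H4 : Prop := ∀ (e : ℝ) (Δ : ℤ), (e = 0 ∨ e = 1) → Δ < 0 → ∀ g : ℕ, 2 ≤ g →
  ∃ δ C : ℝ, 0 < δ ∧ ∀ z : ℕ, 3 ≤ z → δ * Real.log (Real.log z) - C ≤
    ∑ q ∈ (PI 2 z).filter (fun q => ∃ j : ℕ, (g : ZMod q) ^ j = -1), (1 + e * ch Δ q) / q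

/-- Task GS: integers without exact prime divisors outside `c0`. -/
def S_GS : Prop := ∀ c0 : ℕ, 0 < c0 → ∃ C : ℝ, 1 ≤ C ∧ ∀ (G : ℝ) (S : Finset ℕ), 1 ≤ G →
  (∀ g ∈ S, G ≤ g ∧ ∀ p : ℕ, ¬ Ex c0 g p) → ∑ g ∈ S, (1 : ℝ) / g ≤ C * G ^ (-(1 / 3) : ℝ)

/-- Task GD: the decomposition; `n = g * s`, `s` the product of the exact prime divisors. -/
def S_GD : Prop := ∀ c0 n : ℕ, 1 ≤ n → ∃ g : ℕ, 1 ≤ g ∧ n = g * ∏ p ∈ EP c0 n n, p ∧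
  (∀ p : ℕ, ¬ Ex c0 g p) ∧ (∀ p ∈ EP c0 n n, ¬ p ∣ g)

/-! ## B. Many small exact prime divisors -/

/-- Task CA: the count for given `k` smallest exact prime divisors. -/
def S_CA : Prop := ∀ D : Dat, Ax D → ∀ k : ℕ, 1 ≤ k → 1 < Dk D k → ∃ C : ℝ, 1 ≤ C ∧
  ∀ w z X : ℕ, 3 ≤ w → w ≤ z → C * Real.log z * (1 + Real.log (Real.log z)) ≤ Real.log X →
  ∀ ps : Finset ℕ, ps.card = k → (∀ p ∈ ps, p.Prime ∧ p ≤ w) →
    ({n : ℕ | 1 ≤ n ∧ n ≤ X ∧ Pass D n ∧ (∀ p ∈ ps, Ex D.c0 n p) ∧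
      ∀ p : ℕ, Ex D.c0 n p → p ≤ ps.sup id → p ∈ ps}.ncard : ℝ) ≤
    C * (X / ∏ p ∈ ps, (p : ℝ)) * (Real.log w) ^ (Dk D k - 1) * (Real.log z) ^ (-Dk D k)

/-- Task A: at least `k` exact prime divisors up to `w`. -/
def S_A : Prop := ∀ D : Dat, Ax D → ∀ k : ℕ, 1 ≤ k → 1 < Dk D k →
  Tendsto (fun X : ℕ => ({n : ℕ | 1 ≤ n ∧ n ≤ X ∧ Pass D n ∧
    k ≤ (EP D.c0 (wX X) n).card}.ncard : ℝ) * Real.log X / X) atTop (𝓝 0)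

/-! ## C. Two large exact prime divisors -/

open scoped Classical in
/-- Task CB: the count for given small exact prime divisors `ps` and a large one `r`. -/
def S_CB : Prop := ∀ D : Dat, Ax D → ∀ k : ℕ, ∃ C : ℝ, 1 ≤ C ∧ ∀ X Y Q : ℕ, 3 ≤ Y → Y ≤ Q →
  C * Real.log Q * (1 + Real.log (Real.log Q)) ≤ Real.log X →
  ∀ (ps : Finset ℕ) (r : ℕ), ps.card ≤ k → (∀ p ∈ ps, p.Prime) → r.Prime → Q < r → r ∉ ps →
  ((∏ p ∈ ps, p) * r) ^ 4 ≤ X ^ 3 →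
  |∑ q ∈ PI Y Q, (if q ∣ D.c0 then 0 else D.ρ q) * ch (r : ℤ) q / q| ≤ 1 / 2 →
    ({n : ℕ | 1 ≤ n ∧ n ≤ X ∧ Pass D n ∧ (∀ p ∈ ps, Ex D.c0 n p) ∧ Ex D.c0 n r ∧
      ∀ p : ℕ, Ex D.c0 n p → p ≤ Q → p ∈ ps}.ncard : ℝ) ≤
    C * (X / ((∏ p ∈ ps, (p : ℝ)) * r)) * (Real.log Q) ^ (-(3 / 2) : ℝ) *
      (Real.log Y) ^ (1 / 2 : ℝ)

/-- Task B: fewer than `k` exact prime divisors up to `w`, at least two above. -/
def S_B : Prop := ∀ D : Dat, Ax D → ∀ k : ℕ,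
  Tendsto (fun X : ℕ => ({n : ℕ | 1 ≤ n ∧ n ≤ X ∧ Pass D n ∧ (EP D.c0 (wX X) n).card < k ∧
    ∃ r r' : ℕ, wX X < r ∧ r < r' ∧ Ex D.c0 n r ∧ Ex D.c0 n r'}.ncard : ℝ) * Real.log X / X)
    atTop (𝓝 0)

/-! ## D. One large exact prime divisor -/

/-- Task CC: the count for a given cofactor `a` with an exact prime divisor `t`. -/
def S_CC : Prop := ∀ D : Dat, Ax D → ∃ C : ℝ, 1 ≤ C ∧ ∀ w z X a t : ℕ, 3 ≤ w → w ≤ z →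
  C * Real.log z * (1 + Real.log (Real.log z)) ≤ Real.log X → 1 ≤ a → a ^ 4 ≤ X →
  t ≤ w → Ex D.c0 a t →
    ({p : ℕ | p.Prime ∧ t < p ∧ p ≤ X / a ∧ Pass D (a * p)}.ncard : ℝ) ≤
    C * (1 + (a.primeFactors.card : ℝ)) ^ (D.κ : ℝ) * (X / a) * (Real.log w) ^ (1 / 2 : ℝ) *
      (Real.log z) ^ (-(3 / 2) : ℝ)

/-- Task C1: one exact prime divisor above `w`, and between `1` and `k - 1` below. -/
def S_C1 : Prop := ∀ D : Dat, Ax D → ∀ k : ℕ,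
  Tendsto (fun X : ℕ => ({n : ℕ | 1 ≤ n ∧ n ≤ X ∧ Pass D n ∧ (EP D.c0 (wX X) n).card < k ∧
    (EP D.c0 (wX X) n).Nonempty ∧
    ∃ r : ℕ, wX X < r ∧ Ex D.c0 n r ∧ ∀ r' : ℕ, wX X < r' → Ex D.c0 n r' → r' = r}.ncard : ℝ) *
    Real.log X / X) atTop (𝓝 0)

/-- Task CF: a fixed cofactor `g ≥ 2`. -/
def S_CF : Prop := ∀ D : Dat, Ax D → ∀ g : ℕ, 2 ≤ g →
  Tendsto (fun X : ℕ => ({p : ℕ | p.Prime ∧ p ≤ X / g ∧ Pass D (g * p)}.ncard : ℝ) *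
    Real.log X / X) atTop (𝓝 0)

/-- Task C2: exactly one exact prime divisor, above `w`. -/
def S_C2 : Prop := ∀ D : Dat, Ax D →
  Tendsto (fun X : ℕ => ({n : ℕ | 1 ≤ n ∧ n ≤ X ∧ Pass D n ∧ ¬ n.Prime ∧
    ∃ r : ℕ, Ex D.c0 n r ∧ ∀ r' : ℕ, Ex D.c0 n r' → r' = r}.ncard : ℝ) *
    Real.log X / X) atTop (𝓝 0)

/-! ## E. No large exact prime divisor -/

/-- Task E: fewer than `k` exact prime divisors up to `w` and none above. -/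
def S_E : Prop := ∀ c0 : ℕ, 0 < c0 → ∀ k : ℕ,
  Tendsto (fun X : ℕ => ({n : ℕ | 1 ≤ n ∧ n ≤ X ∧ (EP c0 (wX X) n).card < k ∧
    ∀ r : ℕ, wX X < r → ¬ Ex c0 n r}.ncard : ℝ) * Real.log X / X) atTop (𝓝 0)

/-! ## F. Conclusion -/

/-- The main theorem. -/
def S_MAIN : Prop := ∀ D : Dat, Ax D → 1 < D.τ + D.β / 2 →
  Tendsto (fun X : ℕ => ({n : ℕ | 1 ≤ n ∧ n ≤ X ∧ Pass D n ∧ ¬ n.Prime}.ncard : ℝ) *
    Real.log X / X) atTop (𝓝 0)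

/-! ## G. Data for the applications -/

open scoped Classical in
/-- Singer parameters, `L ∣ m`. -/
noncomputable def datS (L : ℕ) : Dat where
  c0 := 6 * L
  m := L
  e := 1
  Δ := -3
  κ := L
  τ := ((L.divisors.filter (fun d => 1 < d)).card : ℝ)
  β := 0
  ρ := fun q => ∑ d ∈ L.divisors.filter (fun d => 1 < d), (if q % d = 1 then (d.totient : ℝ) else 0)
  T := fun q n => ∃ d : ℕ, 1 < d ∧ d ∣ L ∧ orderOf (n : ZMod q) = d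

/-- Task DS. -/
def S_DS : Prop := ∀ L : ℕ, Odd L → 3 ∣ L → Ax (datS L)

/-- Projective planes, `n = 1, 2 (mod 4)`: `q` divides `n² + n + 1` exactly once. -/
noncomputable def datP : Dat where
  c0 := 6
  m := 3
  e := 1
  Δ := -3
  κ := 2
  τ := 1
  β := 1
  ρ := fun q => 1 + ch (-3) q
  T := fun q n => q ∣ n ^ 2 + n + 1 ∧ ¬ q ^ 2 ∣ n ^ 2 + n + 1

/-- Task DP. -/
def S_DP : Prop := Ax datP

end Pool.Agent.W114.PQ
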